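import Pool.Agent.H44.HC.Targets

/-! Generalisation of helper56's module CUT to cliques of any size s > 6. -/

set_option autoImplicit false

namespace Pool.Agent.H44.HC.GCut

open Finset Pool.Agent.H44.HC

/-- the final count -/
lemma arith (s c d i p u : ℕ) (hs : 7 ≤ s) (hp : 2 ≤ p) (hc0 : 1 ≤ c)
    (hc : 6 * s * d ≤ c * (s - 6))
    (h1 : s * p ≤ s * i + u) (h2 : c * i ≤ d * u) (h3 : u + 3 ≤ 6 * (p - 1)) : False := by
  obtain ⟨e, he⟩ := Nat.exists_eq_add_of_le (show 6 ≤ s by omega)
  have h4 : u + 9 ≤ 6 * p := by omega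
  have h5 : s - 6 = e := by omega
  rw [h5] at hc
  have h6 : c * (s * p) ≤ (s * d + c) * u := by
    calc c * (s * p) ≤ c * (s * i + u) := Nat.mul_le_mul_left _ h1
      _ = s * (c * i) + c * u := by ring
      _ ≤ s * (d * u) + c * u := by gcongr
      _ = (s * d + c) * u := by ring
  have h7 : (s * d + c) * (u + 9) ≤ (s * d + c) * (6 * p) := Nat.mul_le_mul_left _ h4
  have h8 : 6 * s * d * p ≤ c * e * p := Nat.mul_le_mul_right _ hc
  have h9 : c * (s * p) = 6 * c * p + c * e * p := by rw [he]; ring
  have h10 : (s * d + c) * (u + 9) = (s * d + c) * u + 9 * (s * d) + 9 * c := by ring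
  have h11 : (s * d + c) * (6 * p) = 6 * s * d * p + 6 * c * p := by ring
  omega

theorem cut_gen (V : Type) [Fintype V] [DecidableEq V] (G : SimpleGraph V) (r c s : ℕ)
    (q : V → V) (hr : 1 ≤ r) (hstar : StarFree r G) (hconn : KConn c G) (hs : 7 ≤ s)
    (hc0 : 1 ≤ c) (hc : 6 * s * (r - 1) ≤ c * (s - 6)) (hq : CliquePart s G q) :
    CutProp G q := by
  classical
  intro pi hpi hp U hU
  by_contra hno
  push Not at hno
  have hno' : ∀ x y, x ∉ U → y ∉ U → pi x ≠ pi y → ¬ G.Adj x y := fun x y hx hy hxy =>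
    hno x y hx hy hxy
  set P := univ.image pi with hPdef
  set I := P.filter (fun i => ∃ x, pi x = i ∧ x ∉ U) with hI
  set J := P.filter (fun i => ¬ ∃ x, pi x = i ∧ x ∉ U) with hJ
  have hIJ : I.card + J.card = P.card := card_filter_add_card_filter_not _
  -- part (a)
  have ha : s * J.card ≤ U.card := by
    have h1 : ∀ i ∈ J, s ≤ ((U.filter fun x => pi x ∈ J).filter fun x => pi x = i).card := by
      intro i hi
      have hi' := hi
      rw [hJ, mem_filter, hPdef, mem_image] at hi'
      obtain ⟨⟨x, -, hx⟩, hin⟩ := hi'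
      refine (hq.2 x).trans (card_le_card fun y hy => ?_)
      rw [mem_filter] at hy
      have hyi : pi y = i := by rw [hpi y x hy.2, hx]
      rw [mem_filter, mem_filter]
      refine ⟨⟨?_, ?_⟩, hyi⟩
      · by_contra hyU
        exact hin ⟨y, hyi, hyU⟩
      · rw [hyi]; exact hi
    have h2 : (U.filter fun x => pi x ∈ J).card =
        ∑ i ∈ J, ((U.filter fun x => pi x ∈ J).filter fun x => pi x = i).card :=
      card_eq_sum_card_fiberwise fun x hx => (mem_filter.1 hx).2
    have h3 : ∑ i ∈ J, s ≤ ∑ i ∈ J, ((U.filter fun x => pi x ∈ J).filter fun x => pi x = i).card :=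
      sum_le_sum h1
    rw [sum_const, smul_eq_mul, mul_comm] at h3
    exact h3.trans (h2 ▸ card_filter_le _ _)
  by_cases hI2 : 2 ≤ I.card
  · -- part (b)
    set N : V → Finset V := fun i => U.filter (fun z => ∃ u, pi u = i ∧ u ∉ U ∧ G.Adj z u) with hN
    have h1 : ∀ i ∈ I, c ≤ (N i).card := by
      intro i hi
      by_contra hlt
      push Not at hlt
      have hcon := hconn.2 (N i) hlt
      obtain ⟨j, hj, hji⟩ : ∃ j ∈ I, j ≠ i := by
        obtain ⟨a, ha, b, hb, hab⟩ := one_lt_card.1 (show 1 < I.card by omega)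
        by_cases h : a = i
        · exact ⟨b, hb, fun h' => hab (h.trans h'.symm)⟩
        · exact ⟨a, ha, h⟩
      obtain ⟨x, hx, hxU⟩ := (mem_filter.1 hi).2
      obtain ⟨y, hy, hyU⟩ := (mem_filter.1 hj).2
      have hxN : x ∈ ((N i : Finset V) : Set V)ᶜ := fun h => hxU (mem_filter.1 h).1
      have hyN : y ∈ ((N i : Finset V) : Set V)ᶜ := fun h => hyU (mem_filter.1 h).1
      have hreach := hcon.preconnected ⟨x, hxN⟩ ⟨y, hyN⟩
      rw [SimpleGraph.reachable_iff_reflTransGen] at hreach
      have hinv : ∀ w : ((((N i : Finset V) : Set V)ᶜ : Set V) : Type),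
          Relation.ReflTransGen (G.induce (((N i : Finset V) : Set V)ᶜ)).Adj ⟨x, hxN⟩ w →
            pi w.1 = i ∧ w.1 ∉ U := by
        intro w hw
        induction hw with
        | refl => exact ⟨hx, hxU⟩
        | @tail b w' _ hbc ih =>
          have hadj : G.Adj b.1 w'.1 := hbc
          have hw'U : w'.1 ∉ U := by
            intro h
            refine w'.2 ?_
            exact mem_filter.2 ⟨h, b.1, ih.1, ih.2, hadj.symm⟩
          refine ⟨?_, hw'U⟩
          by_contra hne
          exact hno' b.1 w'.1 ih.2 hw'U (fun h => hne (h ▸ ih.1)) hadj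
      exact hji (hy ▸ (hinv _ hreach).1)
    have h2 : ∀ z ∈ U, (I.filter fun i => z ∈ N i).card ≤ r - 1 := by
      intro z hz
      by_contra hlt
      push Not at hlt
      have hlt' : r ≤ (I.filter fun i => z ∈ N i).card := by omega
      obtain ⟨T', hT', hTc⟩ := exists_subset_card_eq hlt'
      have hu : ∀ i : V, i ∈ T' → ∃ u, pi u = i ∧ u ∉ U ∧ G.Adj z u := by
        intro i hi
        have h3 : z ∈ N i := (mem_filter.1 (hT' hi)).2
        exact (mem_filter.1 h3).2
      choose! u hu1 hu2 hu3 using hu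
      refine hstar ⟨z, T'.image u, ?_, ?_, ?_⟩
      · rw [card_image_of_injOn, hTc]
        intro a ha b hb hab
        have h3 := hu1 a ha
        have h4 := hu1 b hb
        rw [← h3, ← h4]
        exact congrArg pi hab
      · intro w hw
        obtain ⟨i, hi, rfl⟩ := mem_image.1 hw
        exact hu3 i hi
      · intro a ha b hb hab
        rw [mem_coe, mem_image] at ha hb
        obtain ⟨i, hi, rfl⟩ := ha
        obtain ⟨j, hj, rfl⟩ := hb
        refine hno' _ _ (hu2 i hi) (hu2 j hj) ?_
        rw [hu1 i hi, hu1 j hj]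
        intro h
        exact hab (by rw [h])
    have h3 : c * I.card ≤ (r - 1) * U.card := by
      have h4 : ∑ i ∈ I, c ≤ ∑ i ∈ I, (N i).card := sum_le_sum h1
      have h5 : ∑ i ∈ I, (N i).card = ∑ z ∈ U, (I.filter fun i => z ∈ N i).card := by
        have h6 : ∀ i ∈ I, (N i).card = ∑ z ∈ U, if z ∈ N i then 1 else 0 := by
          intro i _
          rw [← card_filter]
          congr 1
          ext z
          constructor
          · intro h
            exact mem_filter.2 ⟨(mem_filter.1 h).1, h⟩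
          · intro h
            exact (mem_filter.1 h).2
        rw [sum_congr rfl h6, sum_comm]
        refine sum_congr rfl fun z _ => ?_
        rw [← card_filter]
      have h7 : ∑ z ∈ U, (I.filter fun i => z ∈ N i).card ≤ ∑ z ∈ U, (r - 1) := sum_le_sum h2
      rw [sum_const, smul_eq_mul] at h4 h7
      calc c * I.card = I.card * c := mul_comm _ _
        _ ≤ _ := h4
        _ = _ := h5
        _ ≤ _ := h7
        _ = (r - 1) * U.card := mul_comm _ _
    exact arith s c (r - 1) I.card P.card U.card hs hp hc0 hc (by nlinarith [ha, hIJ]) h3 hU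
  · exfalso
    have hI1 : I.card ≤ 1 := by omega
    have h4 : s * P.card ≤ s + U.card := by
      rw [← hIJ, mul_add]
      nlinarith
    have h5 : U.card + 9 ≤ 6 * P.card := by omega
    obtain ⟨e, he⟩ := Nat.exists_eq_add_of_le hs
    obtain ⟨f, hf⟩ := Nat.exists_eq_add_of_le hp
    rw [he, hf] at h4
    rw [hf] at h5
    nlinarith

end Pool.Agent.H44.HC.GCut
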