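import Pool.Agent.H44.HC.HAX
import Pool.Agent.H14.HC.EUL
import Pool.Agent.H20.HC.RAM
import Pool.Agent.H30.HC.PART
import Pool.Agent.H30.HC.TJ
import Pool.Agent.H56.HC.CUT
import Pool.Agent.H56.HC.HL
import Pool.Agent.H56.HC.INS
import Pool.Agent.H44.HC.GPart
import Pool.Agent.H44.HC.GCut

/-! Assembly: highly connected K_{1,r}-free graphs are Hamiltonian. -/

set_option autoImplicit false

namespace Pool.Agent.H44.HC

open Finset

lemma link_mono {ι B : Type} {a b : ι → B} {T T' : Finset ι} (h : T ⊆ T') {u v : B}
    (hl : Link a b T u v) : Link a b T' u v := by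
  unfold Link at *
  induction hl with
  | rel x y hxy =>
    obtain ⟨t, ht, h1, h2⟩ := hxy
    exact Relation.EqvGen.rel _ _ ⟨t, h ht, h1, h2⟩
  | refl x => exact Relation.EqvGen.refl _
  | symm x y _ ih => exact Relation.EqvGen.symm _ _ ih
  | trans x y z _ _ ih1 ih2 => exact Relation.EqvGen.trans _ _ _ ih1 ih2

/-- a label linked to a different label is an end of an edge -/
lemma link_end {ι B : Type} {a b : ι → B} {T : Finset ι} {u v : B} (hl : Link a b T u v)
    (hne : u ≠ v) : ∃ t ∈ T, a t = u ∨ b t = u := by
  by_contra hcon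
  push Not at hcon
  have key : ∀ x y, Link a b T x y → (x = u ↔ y = u) := by
    intro x y h
    unfold Link at h
    induction h with
    | rel x y h =>
      obtain ⟨t, ht, h1, h2⟩ := h
      have := hcon t ht
      constructor
      · intro h; rw [← h1] at h; exact absurd h this.1
      · intro h; rw [← h2] at h; exact absurd h this.2
    | refl x => exact Iff.rfl
    | symm x y _ ih => exact ih.symm
    | trans x y z _ _ ih1 ih2 => exact ih1.trans ih2
  exact hne ((key u v hl).1 rfl).symm

/-- minimum degree of a c-connected graph -/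
lemma kconn_deg {V : Type} [Fintype V] [DecidableEq V] {c : ℕ} {G : SimpleGraph V}
    (h : KConn c G) (v : V) : ∃ N : Finset V, (∀ w ∈ N, G.Adj v w) ∧ c ≤ N.card := by
  classical
  refine ⟨univ.filter (fun w => G.Adj v w), fun w hw => (mem_filter.1 hw).2, ?_⟩
  by_contra hcon
  push Not at hcon
  set N := univ.filter (fun w => G.Adj v w) with hN
  have hconn := h.2 N hcon
  have hvN : v ∉ N := by simp [hN]
  have hex : ∃ w, w ∉ N ∧ w ≠ v := by
    by_contra hno
    push Not at hno
    have hsub : (univ : Finset V) ⊆ insert v N := by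
      intro w _
      by_cases hw : w ∈ N
      · exact mem_insert_of_mem hw
      · rw [hno w hw]
        exact mem_insert_self _ _
    have h1 := card_le_card hsub
    have h2 := card_insert_le v N
    have h3 := h.1
    rw [card_univ] at h1
    omega
  obtain ⟨w, hw, hwv⟩ := hex
  have hv' : v ∈ ((N : Set V)ᶜ) := by simpa using hvN
  have hw' : w ∈ ((N : Set V)ᶜ) := by simpa using hw
  obtain ⟨p⟩ := hconn.preconnected ⟨v, hv'⟩ ⟨w, hw'⟩
  cases p with
  | nil => exact hwv rfl
  | @cons _ u _ hadj _ =>
    have h1 : G.Adj v u.1 := hadj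
    have h2 : u.1 ∉ N := fun h => u.2 (mem_coe.2 h)
    exact h2 (mem_filter.2 ⟨mem_univ _, h1⟩)

lemma head_ne_last {V : Type} {u : V} (L : List V) (hlen : 3 ≤ L.length) (hnd : L.Nodup)
    (hu : L.head? = some u) (hv : L.getLast? = some u) : False := by
  match L with
  | [] => simp at hlen
  | [a] => simp at hlen
  | a :: b :: l =>
    rw [List.head?_cons, Option.some_inj] at hu
    subst hu
    rw [List.getLast?_cons_cons] at hv
    have hmem : a ∈ b :: l := List.mem_of_getLast? hv
    exact (List.nodup_cons.1 hnd).1 hmem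

/-- the complete case -/
lemma ham_complete {V : Type} [Fintype V] [DecidableEq V] {G : SimpleGraph V}
    (hc : 3 ≤ Fintype.card V) (h : ∀ x y, x ≠ y → G.Adj x y) : G.IsHamiltonian := by
  have hnd : (univ : Finset V).toList.Nodup := nodup_toList _
  refine Pool.Agent.H56.HC.HL.hl V G (univ : Finset V).toList ?_ hnd ?_ ?_ ?_
  · rw [length_toList, card_univ]
    exact hc
  · intro v
    simp
  · have hp : (univ : Finset V).toList.Pairwise G.Adj := by
      refine List.Pairwise.imp ?_ hnd
      intro a b hab
      exact h a b hab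
    exact hp.isChain
  · intro u v hu hv
    apply h
    rintro rfl
    have hlen : 3 ≤ (univ : Finset V).toList.length := by
      rw [length_toList, card_univ]
      exact hc
    exact head_ne_last _ hlen hnd hu hv

/-- the directed pair of vertices -/
def conv {V : Type} (d : (V × V) × Bool) : V × V := if d.2 then d.1 else (d.1.2, d.1.1)

lemma src_conv {V : Type} (q : V → V) (d : (V × V) × Bool) :
    src (fun t : V × V => q t.1) (fun t : V × V => q t.2) d = q (conv d).1 := by
  unfold src conv
  split_ifs <;> rfl

lemma tgt_conv {V : Type} (q : V → V) (d : (V × V) × Bool) :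
    tgt (fun t : V × V => q t.1) (fun t : V × V => q t.2) d = q (conv d).2 := by
  unfold tgt conv
  split_ifs <;> rfl

/-- in a closed chain every source is a target -/
lemma src_is_tgt {α B : Type} (f g : α → B) (L : List α) (hch : L.IsChain (fun d d' => g d = f d'))
    (hcl : ∀ d d', L.head? = some d → L.getLast? = some d' → g d' = f d) (d : α) (hd : d ∈ L) :
    ∃ d' ∈ L, g d' = f d := by
  obtain ⟨l1, l2, rfl⟩ := List.append_of_mem hd
  rcases List.eq_nil_or_concat l1 with h | ⟨l, x, h⟩
  · subst h
    rw [List.nil_append] at *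
    obtain ⟨e, he⟩ : ∃ e, (d :: l2).getLast? = some e := by
      cases hh : (d :: l2).getLast? with
      | none => simp at hh
      | some e => exact ⟨e, rfl⟩
    exact ⟨e, List.mem_of_getLast? he, hcl d e rfl he⟩
  · rw [List.concat_eq_append] at h
    subst h
    refine ⟨x, by simp, ?_⟩
    rw [List.append_assoc, List.singleton_append] at hch
    have := (List.isChain_append.1 hch).2.1
    rw [List.isChain_cons_cons] at this
    exact this.1

theorem main_part {V : Type} [Fintype V] [DecidableEq V] (G : SimpleGraph V) (q : V → V) (s : ℕ)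
    (hcl : CliquePart s G q) (hcut : CutProp G q) (hcard : 3 ≤ Fintype.card V) :
    G.IsHamiltonian := by
  classical
  by_cases hall : ∀ u v, q u = q v
  · exact ham_complete hcard (fun x y hxy => hcl.1 x y (hall x y) hxy)
  push Not at hall
  obtain ⟨u0, v0, huv⟩ := hall
  obtain ⟨T1, T2, hdis, hadj, hsupp, hl1, hl2⟩ := Hax.hax V G q hcut
  set a : V × V → V := fun t => q t.1 with ha
  set b : V × V → V := fun t => q t.2 with hb
  obtain ⟨J, hJ, heven⟩ := Pool.Agent.H30.HC.tj (V × V) V a b T1 T2 (fun e _ => hl2 e.1 e.2)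
  have hT1J : Disjoint T1 J := hdis.mono_right hJ
  set E := T1 ∪ J with hE
  have hEsub : E ⊆ T1 ∪ T2 := union_subset_union_right hJ
  have hTne : T1.Nonempty := by
    obtain ⟨t, ht, _⟩ := link_end (hl1 u0 v0) huv
    exact ⟨t, ht⟩
  have hEne : E.Nonempty := hTne.mono subset_union_left
  have hev : ∀ v, Even (ends a b E v) := by
    intro v
    have : ends a b E v = ends a b T1 v + ends a b J v := by
      unfold ends
      rw [hE, filter_union, filter_union, card_union_of_disjoint, card_union_of_disjoint]
      · ring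
      · exact disjoint_filter_filter hT1J
      · exact disjoint_filter_filter hT1J
    rw [this]
    exact heven v
  obtain ⟨L, hLnd, hLmem, hLch, hLcl⟩ := Pool.Agent.H14.HC.Eul.eul (V × V) V a b E hEne hev
    (fun e _ f _ => link_mono subset_union_left (hl1 e.1 f.1))
  have hinE : ∀ d ∈ L, d.1 ∈ T1 ∪ T2 := by
    intro d hd
    exact hEsub ((hLmem d.1).1 (List.mem_map_of_mem hd))
  refine Pool.Agent.H56.HC.INS.ins Pool.Agent.H56.HC.HL.hl V G q (L.map conv) hcl.1 hcard
    ?_ ?_ ?_ ?_ ?_
  · intro d hd
    obtain ⟨e, he, rfl⟩ := List.mem_map.1 hd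
    have := hadj e.1 (hinE e he)
    unfold conv
    split_ifs
    · exact this
    · exact this.symm
  · rw [List.flatMap_map]
    rw [List.nodup_flatMap]
    constructor
    · intro e he
      have := (hadj e.1 (hinE e he)).ne
      unfold conv
      split_ifs
      · simpa using this
      · simpa using this.symm
    · have hp : L.Pairwise (fun d d' => d.1 ≠ d'.1) := by
        have := hLnd
        unfold List.Nodup at this
        rw [List.pairwise_map] at this
        exact this
      refine List.Pairwise.imp_of_mem ?_ hp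
      intro d d' hd hd' hne
      have h4 := hsupp d.1 (hinE d hd) d'.1 (hinE d' hd') hne
      rw [Function.onFun, List.disjoint_left]
      intro x hx hx'
      have hx1 : x = d.1.1 ∨ x = d.1.2 := by
        unfold conv at hx
        split_ifs at hx <;> simp at hx <;> tauto
      have hx2 : x = d'.1.1 ∨ x = d'.1.2 := by
        unfold conv at hx'
        split_ifs at hx' <;> simp at hx' <;> tauto
      rcases hx1 with h | h <;> rcases hx2 with h' | h' <;> rw [h] at h'
      · exact h4.1 h'
      · exact h4.2.1 h'
      · exact h4.2.2.1 h'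
      · exact h4.2.2.2 h'
  · rw [List.isChain_map]
    refine List.IsChain.imp ?_ hLch
    intro d d' h
    rw [tgt_conv q d, src_conv q d'] at h
    exact h
  · intro d d' hd hd'
    rw [List.head?_map, Option.map_eq_some_iff] at hd
    rw [List.getLast?_map, Option.map_eq_some_iff] at hd'
    obtain ⟨e, he, rfl⟩ := hd
    obtain ⟨e', he', rfl⟩ := hd'
    have := hLcl e e' he he'
    rw [tgt_conv q e', src_conv q e] at this
    exact this
  · intro v
    obtain ⟨w, hw⟩ : ∃ w, q v ≠ q w := by
      by_cases h : q v = q u0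
      · exact ⟨v0, by rw [h]; exact huv⟩
      · exact ⟨u0, h⟩
    obtain ⟨t, ht, hend⟩ := link_end (hl1 v w) hw
    have htE : t ∈ L.map Prod.fst := (hLmem t).2 (mem_union_left _ ht)
    obtain ⟨d, hd, hdt⟩ := List.mem_map.1 htE
    have h5 : q (conv d).2 = q v ∨ q (conv d).1 = q v := by
      unfold conv
      rw [hdt]
      rcases hend with h | h
      · split_ifs
        · right; exact h
        · left; exact h
      · split_ifs
        · left; exact h
        · right; exact h
    rcases h5 with h5 | h5
    · exact ⟨conv d, List.mem_map_of_mem hd, h5⟩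
    · obtain ⟨d', hd', h6⟩ := src_is_tgt _ _ L hLch hLcl d hd
      refine ⟨conv d', List.mem_map_of_mem hd', ?_⟩
      rw [tgt_conv q d', src_conv q d] at h6
      rw [h6, h5]

/-- connectivity linear in r is enough for graphs of large minimum degree -/
theorem hamiltonian_of_kconn_degree (r s c : ℕ) (hr : 1 ≤ r) (hs : 7 ≤ s) (hc0 : 2 ≤ c)
    (hc : 6 * s * (r - 1) ≤ c * (s - 6))
    (V : Type) [Fintype V] [DecidableEq V] (G : SimpleGraph V)
    (hk : KConn c G) (hf : StarFree r G)
    (hd : ∀ v, ∃ N : Finset V, (∀ w ∈ N, G.Adj v w) ∧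
      (r + s - 1).choose s * (1 + (s + 1) * (r + s - 3).choose (s - 2)) ≤ N.card) :
    G.IsHamiltonian := by
  obtain ⟨t, rfl⟩ := Nat.exists_eq_add_of_le (show 2 ≤ s by omega)
  rw [add_comm 2 t] at *
  obtain ⟨q, hq⟩ := GPart.part_gen Pool.Agent.H20.HC.ram V G r t hr hf (by
    intro v
    obtain ⟨N, hN1, hN2⟩ := hd v
    refine ⟨N, hN1, ?_⟩
    rw [show r + (t + 2) - 1 = r + t + 1 by omega, show r + (t + 2) - 3 = r + t - 1 by omega,
      show t + 2 - 2 = t by omega] at hN2
    exact hN2)
  have hcut := GCut.cut_gen V G r c (t + 2) q hr hf hk hs (by omega) hc hq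
  exact main_part G q (t + 2) hq hcut (by have := hk.1; omega)

end Pool.Agent.H44.HC
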