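import Pool.Agent.H44.HC.HaxAbs

/-! HAX: two vertex-disjoint systems of crossing edges, each linking all the cliques. -/

set_option autoImplicit false

namespace Pool.Agent.H44.HC.Hax

open Finset Submodule

/-- contraction lemma -/
lemma contract {Ω V : Type} [DecidableEq Ω] [DecidableEq V] (a b : Ω → V) (B : Finset V)
    (A : Finset Ω) : ∃ π : V → V, (∀ t ∈ A, π (a t) = π (b t)) ∧
      B.card ≤ (B.image π).card + A.card := by
  induction A using Finset.induction_on with
  | empty => exact ⟨id, by simp, by simp⟩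
  | insert t A ht ih =>
    obtain ⟨π, h1, h2⟩ := ih
    refine ⟨fun v => if π v = π (b t) then π (a t) else π v, ?_, ?_⟩
    · intro s hs
      rcases mem_insert.1 hs with h | h
      · subst h
        by_cases hc : π (a s) = π (b s)
        · simp [hc]
        · simp [hc]
      · have := h1 s h
        simp only [this]
    · have hsub : (B.image π).erase (π (b t)) ⊆
          B.image (fun v => if π v = π (b t) then π (a t) else π v) := by
        intro u hu
        rw [mem_erase, mem_image] at hu
        obtain ⟨hne, v, hv, rfl⟩ := hu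
        rw [mem_image]
        exact ⟨v, hv, by simp [hne]⟩
      have h3 := card_le_card hsub
      have h4 : (B.image π).card - 1 ≤ ((B.image π).erase (π (b t))).card := pred_card_le_card_erase
      rw [card_insert_of_notMem ht]
      omega

variable {V : Type} [Fintype V] [DecidableEq V]

/-- the vector of a crossing edge in the copy -/
noncomputable def vec (q : V → V) (t : (V × V) × Bool) : Bool → V → ℚ :=
  Pi.single t.2 (Pi.single (q t.1.1) 1 - Pi.single (q t.1.2) 1)

def supp (t : (V × V) × Bool) : Finset V := {t.1.1, t.1.2}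

/-- the functional summing the values of the copy over a class -/
noncomputable def fnl (i : Bool) (C : Finset V) : (Bool → V → ℚ) →ₗ[ℚ] ℚ where
  toFun g := ∑ v ∈ C, g i v
  map_add' g h := by simp [sum_add_distrib]
  map_smul' c g := by simp [mul_sum]

lemma fnl_single (i j : Bool) (C : Finset V) (u w : V) :
    fnl i C (Pi.single j (Pi.single u 1 - Pi.single w 1)) =
      if j = i then (if u ∈ C then 1 else 0) - (if w ∈ C then 1 else 0) else 0 := by
  unfold fnl
  simp only [LinearMap.coe_mk, AddHom.coe_mk]
  by_cases h : j = i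
  · subst h
    simp only [Pi.single_eq_same, if_true]
    rw [show (∑ v ∈ C, (Pi.single u 1 - Pi.single w 1 : V → ℚ) v) =
      ∑ v ∈ C, (Pi.single u (1 : ℚ) : V → ℚ) v - ∑ v ∈ C, (Pi.single w (1 : ℚ) : V → ℚ) v by
        rw [← sum_sub_distrib]; rfl]
    simp [Pi.single_apply, Finset.sum_ite_eq, Finset.sum_ite_eq']
  · rw [if_neg h]
    apply sum_eq_zero
    intro v _
    rw [Pi.single_eq_of_ne (Ne.symm h)]
    rfl

lemma ext_hyp (G : SimpleGraph V) (q : V → V) (hcut : CutProp G q)
    (T : Finset ((V × V) × Bool)) (hn : T.card + 3 ≤ 2 * (univ.image q).card)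
    (W : Finset ((V × V) × Bool)) (hW : W ⊆ T) (U : Finset V) (hU : U.card ≤ 3 * W.card) :
    ∃ z : (V × V) × Bool, G.Adj z.1.1 z.1.2 ∧
      vec q z ∉ span ℚ (vec q '' ((T \ W : Finset ((V × V) × Bool)) : Set ((V × V) × Bool))) ∧
      Disjoint (supp z) U := by
  classical
  have hex : ∃ (i : Bool) (π : V → V),
      (∀ t ∈ T \ W, t.2 = i → π (q t.1.1) = π (q t.1.2)) ∧
      W.card + 3 ≤ 2 * ((univ.image q).image π).card := by
    have key : ∀ i : Bool, ∃ π : V → V, (∀ t ∈ T \ W, t.2 = i → π (q t.1.1) = π (q t.1.2)) ∧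
        (univ.image q).card ≤ ((univ.image q).image π).card +
          ((T \ W).filter (fun t => t.2 = i)).card := by
      intro i
      obtain ⟨π, h1, h2⟩ := contract (fun t : (V × V) × Bool => q t.1.1) (fun t => q t.1.2)
        (univ.image q) ((T \ W).filter (fun t => t.2 = i))
      exact ⟨π, fun t ht hti => h1 t (mem_filter.2 ⟨ht, hti⟩), h2⟩
    obtain ⟨π0, h01, h02⟩ := key false
    obtain ⟨π1, h11, h12⟩ := key true
    have hsplit : ((T \ W).filter (fun t => t.2 = false)).card +
        ((T \ W).filter (fun t => t.2 = true)).card = (T \ W).card := by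
      have := card_filter_add_card_filter_not (s := T \ W)
        (fun t : (V × V) × Bool => t.2 = false)
      simpa using this
    have hTW : (T \ W).card + W.card = T.card := by
      rw [card_sdiff_of_subset hW]
      have := card_le_card hW
      omega
    by_cases hc : W.card + 3 ≤ 2 * ((univ.image q).image π0).card
    · exact ⟨false, π0, h01, hc⟩
    · exact ⟨true, π1, h11, by omega⟩
  obtain ⟨i, π, hπ, hp⟩ := hex
  have himg : (univ.image (fun v => π (q v))) = (univ.image q).image π := by
    rw [image_image]; rfl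
  obtain ⟨x, y, hxU, hyU, hne, hadj⟩ := hcut (fun v => π (q v)) (fun x y h => by simp only [h])
    (by rw [himg]; omega) U (by rw [himg]; omega)
  refine ⟨((x, y), i), hadj, ?_, ?_⟩
  · intro hmem
    set C : Finset V := univ.filter (fun v => π v = π (q x)) with hC
    have hle : span ℚ (vec q '' ((T \ W : Finset ((V × V) × Bool)) : Set ((V × V) × Bool))) ≤
        LinearMap.ker (fnl i C) := by
      rw [span_le]
      rintro _ ⟨t, ht, rfl⟩
      rw [SetLike.mem_coe, LinearMap.mem_ker]
      unfold vec
      rw [fnl_single]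
      by_cases hti : t.2 = i
      · rw [if_pos hti]
        have := hπ t ht hti
        simp [hC, this]
      · rw [if_neg hti]
    have h0 := hle hmem
    rw [LinearMap.mem_ker] at h0
    unfold vec at h0
    rw [fnl_single, if_pos rfl] at h0
    have h1 : q x ∈ C := by simp [hC]
    have h2 : q y ∉ C := by
      simp only [hC, mem_filter, mem_univ, true_and]
      exact fun h => hne h.symm
    rw [if_pos h1, if_neg h2] at h0
    norm_num at h0
  · unfold supp
    rw [disjoint_left]
    intro v hv
    rw [mem_insert, mem_singleton] at hv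
    rcases hv with rfl | rfl
    · exact hxU
    · exact hyU

lemma finrank_T (q : V → V) (T : Finset ((V × V) × Bool))
    (h : LinearIndepOn ℚ (vec q) (T : Set ((V × V) × Bool))) :
    Module.finrank ℚ (span ℚ (vec q '' (T : Set ((V × V) × Bool)))) = T.card := by
  have h1 := finrank_span_eq_card (R := ℚ) (b := fun t : (T : Set ((V × V) × Bool)) => vec q t) h
  rw [Set.image_eq_range]
  rw [h1]
  simp

lemma finrank_S (q : V → V) (T : Finset ((V × V) × Bool))
    (h : LinearIndepOn ℚ (vec q) (T : Set ((V × V) × Bool))) (i : Bool) (C : Finset V)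
    (hC : ∀ t ∈ T, t.2 = i → (q t.1.1 ∈ C ↔ q t.1.2 ∈ C)) (u v : V) (hu : q u ∈ C)
    (hv : q v ∉ C) : T.card + 3 ≤ 2 * (univ.image q).card := by
  classical
  set S : Finset (Bool → V → ℚ) := ((univ : Finset Bool) ×ˢ ((univ.image q).erase (q u))).image
    (fun p => Pi.single p.1 (Pi.single p.2 1 - Pi.single (q u) 1)) with hS
  have hScard : S.card ≤ 2 * ((univ.image q).card - 1) := by
    refine card_image_le.trans ?_
    rw [card_product, card_erase_of_mem (mem_image_of_mem q (mem_univ u))]
    simp
  have hSmem : ∀ (j : Bool) (w : V), (Pi.single j (Pi.single (q w) 1 - Pi.single (q u) 1) :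
      Bool → V → ℚ) ∈ span ℚ (S : Set (Bool → V → ℚ)) := by
    intro j w
    by_cases hw : q w = q u
    · rw [hw, sub_self, Pi.single_zero]
      exact zero_mem _
    · apply subset_span
      rw [mem_coe, hS, mem_image]
      exact ⟨(j, q w), mem_product.2 ⟨mem_univ _, mem_erase.2 ⟨hw, mem_image_of_mem q (mem_univ w)⟩⟩,
        rfl⟩
  have hall : ∀ (j : Bool) (w w' : V), (Pi.single j (Pi.single (q w) 1 - Pi.single (q w') 1) :
      Bool → V → ℚ) ∈ span ℚ (S : Set (Bool → V → ℚ)) := by
    intro j w w'
    have : (Pi.single j (Pi.single (q w) 1 - Pi.single (q w') 1) : Bool → V → ℚ) =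
        Pi.single j (Pi.single (q w) 1 - Pi.single (q u) 1) -
        Pi.single j (Pi.single (q w') 1 - Pi.single (q u) 1) := by
      rw [← Pi.single_sub]
      congr 1
      abel
    rw [this]
    exact sub_mem (hSmem j w) (hSmem j w')
  have hlt : span ℚ (vec q '' (T : Set ((V × V) × Bool))) < span ℚ (S : Set (Bool → V → ℚ)) := by
    rw [SetLike.lt_iff_le_and_exists]
    refine ⟨?_, Pi.single i (Pi.single (q u) 1 - Pi.single (q v) 1), hall i u v, ?_⟩
    · rw [span_le]
      rintro _ ⟨t, _, rfl⟩
      exact hall _ _ _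
    · intro hmem
      have hle : span ℚ (vec q '' (T : Set ((V × V) × Bool))) ≤ LinearMap.ker (fnl i C) := by
        rw [span_le]
        rintro _ ⟨t, ht, rfl⟩
        rw [SetLike.mem_coe, LinearMap.mem_ker]
        unfold vec
        rw [fnl_single]
        by_cases hti : t.2 = i
        · rw [if_pos hti]
          have := hC t ht hti
          by_cases h1 : q t.1.1 ∈ C
          · rw [if_pos h1, if_pos (this.1 h1), sub_self]
          · rw [if_neg h1, if_neg (fun h2 => h1 (this.2 h2)), sub_self]
        · rw [if_neg hti]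
      have h0 := hle hmem
      rw [LinearMap.mem_ker, fnl_single, if_pos rfl, if_pos hu, if_neg hv] at h0
      norm_num at h0
  have h1 := Submodule.finrank_lt_finrank_of_lt hlt
  rw [finrank_T q T h] at h1
  have h2 := finrank_span_finset_le_card (R := ℚ) S
  have h3 : Module.finrank ℚ (span ℚ (S : Set (Bool → V → ℚ))) ≤ S.card := h2
  have h4 : 0 < (univ.image q).card := card_pos.2 ⟨q u, mem_image_of_mem q (mem_univ u)⟩
  omega

theorem hax : T_HAX := by
  intro V _ _ G q hcut
  classical
  let val : (V × V) × Bool → Prop := fun z => G.Adj z.1.1 z.1.2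
  -- maximum good set
  have hex : ∃ n, (∃ T, Good val (vec q) supp T ∧ T.card = n) ∧
      ∀ T, Good val (vec q) supp T → T.card ≤ n := by
    have h0 : Good val (vec q) supp ∅ :=
      ⟨by simp, by simp, by simp⟩
    obtain ⟨T, hT1, hT2⟩ := exists_max_image
      ((univ : Finset (Finset ((V × V) × Bool))).filter (fun T => Good val (vec q) supp T)) card
      ⟨∅, mem_filter.2 ⟨mem_univ _, h0⟩⟩
    exact ⟨T.card, ⟨T, (mem_filter.1 hT1).2, rfl⟩, fun T' hT' =>
      hT2 T' (mem_filter.2 ⟨mem_univ _, hT'⟩)⟩
  obtain ⟨n, ⟨T, hT, hTn⟩, hmax⟩ := hex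
  have hbig : ¬ (n + 3 ≤ 2 * (univ.image q).card) := by
    intro hsmall
    refine hax_abs (val := val) (φ := vec q) (sp := supp) (n := n) ?_ ?_ hmax ⟨T, hT, hTn⟩ ?_
    · intro z
      exact ⟨z.1.1, by simp [supp]⟩
    · intro z
      exact card_le_two
    · intro T' _ hT'n W hW U hU
      exact ext_hyp G q hcut T' (by rw [hT'n]; exact hsmall) W hW U hU
  -- T links in each copy
  have hlink : ∀ (i : Bool) (u v : V), Link (fun t : V × V => q t.1) (fun t : V × V => q t.2)
      ((T.filter (fun t => t.2 = i)).image Prod.fst) (q u) (q v) := by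
    intro i u v
    by_contra hcon
    apply hbig
    rw [← hTn]
    refine finrank_S q T hT.li i (univ.filter (fun w => Link (fun t : V × V => q t.1)
      (fun t : V × V => q t.2) ((T.filter (fun t => t.2 = i)).image Prod.fst) (q u) w))
      ?_ u v ?_ ?_
    · intro t ht hti
      simp only [mem_filter, mem_univ, true_and]
      have hl : Link (fun t : V × V => q t.1) (fun t : V × V => q t.2)
          ((T.filter (fun t => t.2 = i)).image Prod.fst) (q t.1.1) (q t.1.2) :=
        Relation.EqvGen.rel _ _ ⟨t.1, mem_image.2 ⟨t, mem_filter.2 ⟨ht, hti⟩, rfl⟩, rfl, rfl⟩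
      constructor
      · exact fun h => Relation.EqvGen.trans _ _ _ h hl
      · exact fun h => Relation.EqvGen.trans _ _ _ h (Relation.EqvGen.symm _ _ hl)
    · simp only [mem_filter, mem_univ, true_and]
      exact Relation.EqvGen.refl _
    · simpa only [mem_filter, mem_univ, true_and] using hcon
  have hlift : ∀ t ∈ (T.filter (fun t => t.2 = false)).image Prod.fst ∪
      (T.filter (fun t => t.2 = true)).image Prod.fst, ∃ i, (t, i) ∈ T := by
    intro t ht
    rw [mem_union, mem_image, mem_image] at ht
    rcases ht with ⟨s, hs, rfl⟩ | ⟨s, hs, rfl⟩ <;>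
    exact ⟨s.2, (mem_filter.1 hs).1⟩
  refine ⟨(T.filter (fun t => t.2 = false)).image Prod.fst,
    (T.filter (fun t => t.2 = true)).image Prod.fst, ?_, ?_, ?_, hlink false, hlink true⟩
  · rw [disjoint_left]
    intro t h1 h2
    rw [mem_image] at h1 h2
    obtain ⟨s, hs, rfl⟩ := h1
    obtain ⟨s', hs', hss⟩ := h2
    rw [mem_filter] at hs hs'
    have hne : s ≠ s' := by
      rintro rfl
      rw [hs.2] at hs'
      exact absurd hs'.2 (by decide)
    have := hT.d s hs.1 s' hs'.1 hne
    rw [disjoint_left] at this
    apply this (a := s.1.1)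
    · simp [supp]
    · simp [supp, hss]
  · intro t ht
    obtain ⟨i, hi⟩ := hlift t ht
    exact hT.v _ hi
  · intro t ht t' ht' hne
    obtain ⟨i, hi⟩ := hlift t ht
    obtain ⟨i', hi'⟩ := hlift t' ht'
    have hne' : (t, i) ≠ (t', i') := fun h => hne (congrArg Prod.fst h)
    have hd := hT.d _ hi _ hi' hne'
    rw [disjoint_left] at hd
    unfold supp at hd
    simp only [mem_insert, mem_singleton] at hd
    have h1 := hd (a := t.1) (Or.inl rfl)
    have h2 := hd (a := t.2) (Or.inr rfl)
    push Not at h1 h2
    exact ⟨h1.1, h1.2, h2.1, h2.2⟩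

end Pool.Agent.H44.HC.Hax
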