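import Pool.Agent.H44.HC.Targets

/-! The abstract Haxell argument: large independent matchings in a representable matroid. -/

set_option autoImplicit false

namespace Pool.Agent.H44.HC.Hax

open Finset Submodule

variable {Ω V M : Type} [DecidableEq Ω] [DecidableEq V] [AddCommGroup M] [Module ℚ M]

/-- good sets: valid elements, pairwise disjoint supports, independent vectors -/
structure Good (val : Ω → Prop) (φ : Ω → M) (sp : Ω → Finset V) (T : Finset Ω) : Prop where
  v : ∀ t ∈ T, val t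
  d : ∀ t ∈ T, ∀ t' ∈ T, t ≠ t' → Disjoint (sp t) (sp t')
  li : LinearIndepOn ℚ φ (T : Set Ω)

/-- elements of T whose support meets that of x -/
def W1 (sp : Ω → Finset V) (T : Finset Ω) (x : Ω) : Finset Ω :=
  T.filter (fun t => ¬ Disjoint (sp t) (sp x))

/-- elements of T whose support meets that of an element of the list -/
def WW (sp : Ω → Finset V) (T : Finset Ω) : List (Ω × ℕ) → Finset Ω
  | [] => ∅
  | y :: Y => WW sp T Y ∪ W1 sp T y.1

omit [DecidableEq Ω] [DecidableEq V] in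
lemma WW_cons [DecidableEq Ω] [DecidableEq V] (sp : Ω → Finset V) (T : Finset Ω) (y : Ω × ℕ)
    (Y : List (Ω × ℕ)) : WW sp T (y :: Y) = WW sp T Y ∪ W1 sp T y.1 := rfl

/-- vertices touched -/
def UU (sp : Ω → Finset V) (T : Finset Ω) : List (Ω × ℕ) → Finset V
  | [] => ∅
  | y :: Y => UU sp T Y ∪ (sp y.1 ∪ (W1 sp T y.1).biUnion sp)

/-- admissible next elements -/
def Ext (val : Ω → Prop) (φ : Ω → M) (sp : Ω → Finset V) (T : Finset Ω) (Y : List (Ω × ℕ))
    (z : Ω) : Prop :=
  val z ∧ φ z ∉ span ℚ (φ '' ((T \ WW sp T Y : Finset Ω) : Set Ω)) ∧ Disjoint (sp z) (UU sp T Y)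

/-- the class of maximum good sets compatible with the list -/
def Cls (val : Ω → Prop) (φ : Ω → M) (sp : Ω → Finset V) (n : ℕ) :
    List (Ω × ℕ) → Finset Ω → Prop
  | [], T => Good val φ sp T ∧ T.card = n
  | y :: Y, T => Cls val φ sp n Y T ∧ Ext val φ sp T Y y.1 ∧ (W1 sp T y.1).card = y.2

/-- optimality of the list -/
def Opt (val : Ω → Prop) (φ : Ω → M) (sp : Ω → Finset V) (n : ℕ) : List (Ω × ℕ) → Prop
  | [] => True
  | y :: Y => Opt val φ sp n Y ∧ 1 ≤ y.2 ∧
      ∀ T, Cls val φ sp n Y T → ∀ z, Ext val φ sp T Y z → y.2 ≤ (W1 sp T z).card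

variable {val : Ω → Prop} {φ : Ω → M} {sp : Ω → Finset V} {n : ℕ}

lemma Cls.base : ∀ {Y : List (Ω × ℕ)} {T : Finset Ω}, Cls val φ sp n Y T →
    Good val φ sp T ∧ T.card = n
  | [], _, h => h
  | _ :: _, _, h => Cls.base h.1

lemma WW_sub (T : Finset Ω) : ∀ Y : List (Ω × ℕ), WW sp T Y ⊆ T
  | [] => by simp [WW]
  | y :: Y => by
      unfold WW
      exact union_subset (WW_sub T Y) (filter_subset _ _)

lemma mem_WW {T : Finset Ω} {t : Ω} : ∀ {Y : List (Ω × ℕ)},
    t ∈ WW sp T Y ↔ t ∈ T ∧ ∃ y ∈ Y, ¬ Disjoint (sp t) (sp y.1)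
  | [] => by simp [WW]
  | y :: Y => by
      unfold WW
      rw [mem_union, mem_WW (Y := Y)]
      unfold W1
      rw [mem_filter]
      simp only [List.mem_cons, exists_eq_or_imp]
      constructor
      · rintro (⟨h1, h2⟩ | ⟨h1, h2⟩)
        · exact ⟨h1, Or.inr h2⟩
        · exact ⟨h1, Or.inl h2⟩
      · rintro ⟨h1, h2 | h2⟩
        · exact Or.inr ⟨h1, h2⟩
        · exact Or.inl ⟨h1, h2⟩

omit [DecidableEq Ω] in
lemma sp_sub_UU {T : Finset Ω} : ∀ {Y : List (Ω × ℕ)} {y : Ω × ℕ}, y ∈ Y → sp y.1 ⊆ UU sp T Y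
  | [], y, h => by simp at h
  | a :: Y, y, h => by
      unfold UU
      rcases List.mem_cons.1 h with h | h
      · subst h
        intro v hv
        simp [hv]
      · exact (sp_sub_UU h).trans subset_union_left

lemma sp_sub_UU' {T : Finset Ω} : ∀ {Y : List (Ω × ℕ)} {t : Ω}, t ∈ WW sp T Y →
    sp t ⊆ UU sp T Y
  | [], t, h => by simp [WW] at h
  | a :: Y, t, h => by
      unfold UU
      unfold WW at h
      rcases mem_union.1 h with h | h
      · exact (sp_sub_UU' h).trans subset_union_left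
      · intro v hv
        have : v ∈ (W1 sp T a.1).biUnion sp := mem_biUnion.2 ⟨t, h, hv⟩
        simp [this]

lemma bounds (hsp : ∀ z, (sp z).card ≤ 2) {T : Finset Ω} : ∀ {Y : List (Ω × ℕ)},
    Opt val φ sp n Y → Cls val φ sp n Y T →
    (UU sp T Y).card ≤ 3 * (WW sp T Y).card ∧ Y.length ≤ (WW sp T Y).card
  | [], _, _ => by simp [UU, WW]
  | y :: Y, ho, hc => by
      obtain ⟨ih1, ih2⟩ := bounds hsp ho.1 hc.1
      have hdis : Disjoint (WW sp T Y) (W1 sp T y.1) := by
        rw [disjoint_left]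
        intro t ht ht'
        unfold W1 at ht'
        rw [mem_filter] at ht'
        apply ht'.2
        exact (hc.2.1.2.2.mono_right (sp_sub_UU' ht)).symm
      have hcard : (WW sp T (y :: Y)).card = (WW sp T Y).card + y.2 := by
        rw [WW_cons, card_union_of_disjoint hdis, hc.2.2]
      have h1 : 1 ≤ y.2 := ho.2.1
      have hU : (sp y.1 ∪ (W1 sp T y.1).biUnion sp).card ≤ 2 + y.2 := by
        have hsub : sp y.1 ∪ (W1 sp T y.1).biUnion sp ⊆
            sp y.1 ∪ (W1 sp T y.1).biUnion (fun t => sp t \ sp y.1) := by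
          intro v hv
          rw [mem_union] at hv ⊢
          by_cases hvy : v ∈ sp y.1
          · exact Or.inl hvy
          · rcases hv with hv | hv
            · exact Or.inl hv
            · right
              rw [mem_biUnion] at hv ⊢
              obtain ⟨t, ht, hvt⟩ := hv
              exact ⟨t, ht, mem_sdiff.2 ⟨hvt, hvy⟩⟩
        refine (card_le_card hsub).trans ((card_union_le _ _).trans ?_)
        refine Nat.add_le_add (hsp _) ?_
        refine card_biUnion_le.trans ?_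
        calc ∑ t ∈ W1 sp T y.1, (sp t \ sp y.1).card ≤ ∑ t ∈ W1 sp T y.1, 1 := by
              apply sum_le_sum
              intro t ht
              unfold W1 at ht
              rw [mem_filter] at ht
              rw [card_sdiff]
              have hne : 0 < (sp y.1 ∩ sp t).card := by
                rw [card_pos]
                rw [disjoint_iff_inter_eq_empty] at ht
                rw [inter_comm]
                exact nonempty_iff_ne_empty.2 ht.2
              have := hsp t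
              omega
          _ = y.2 := by rw [sum_const, smul_eq_mul, mul_one, hc.2.2]
      refine ⟨?_, ?_⟩
      · rw [hcard]
        unfold UU
        refine (card_union_le _ _).trans ?_
        omega
      · rw [hcard, List.length_cons]
        omega

lemma WW_swap {T : Finset Ω} {Y : List (Ω × ℕ)} {x w0 : Ω} (hw0 : w0 ∉ WW sp T Y)
    (hx : ∀ y ∈ Y, Disjoint (sp x) (sp y.1)) : WW sp (insert x (T.erase w0)) Y = WW sp T Y := by
  ext t
  rw [mem_WW, mem_WW]
  constructor
  · rintro ⟨h1, y, hy, h2⟩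
    rcases mem_insert.1 h1 with h | h
    · subst h
      exact absurd (hx y hy) h2
    · exact ⟨mem_of_mem_erase h, y, hy, h2⟩
  · rintro ⟨h1, y, hy, h2⟩
    refine ⟨mem_insert_of_mem (mem_erase.2 ⟨?_, h1⟩), y, hy, h2⟩
    rintro rfl
    exact hw0 (mem_WW.2 ⟨h1, y, hy, h2⟩)

lemma W1_swap {T : Finset Ω} {x w0 y : Ω} (hw0 : Disjoint (sp w0) (sp y))
    (hx : Disjoint (sp x) (sp y)) : W1 sp (insert x (T.erase w0)) y = W1 sp T y := by
  ext t
  unfold W1
  rw [mem_filter, mem_filter]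
  constructor
  · rintro ⟨h1, h2⟩
    rcases mem_insert.1 h1 with h | h
    · subst h
      exact absurd hx h2
    · exact ⟨mem_of_mem_erase h, h2⟩
  · rintro ⟨h1, h2⟩
    refine ⟨mem_insert_of_mem (mem_erase.2 ⟨?_, h1⟩), h2⟩
    rintro rfl
    exact h2 hw0

lemma UU_swap {T : Finset Ω} {x w0 : Ω} (hw : w0 ∈ T) : ∀ {Y : List (Ω × ℕ)}, w0 ∉ WW sp T Y →
    (∀ y ∈ Y, Disjoint (sp x) (sp y.1)) → UU sp (insert x (T.erase w0)) Y = UU sp T Y
  | [], _, _ => rfl
  | y :: Y, h1, h2 => by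
      unfold UU
      have h3 : w0 ∉ WW sp T Y ∧ w0 ∉ W1 sp T y.1 := by
        unfold WW at h1
        rw [mem_union] at h1
        tauto
      rw [UU_swap hw h3.1 (fun z hz => h2 z (List.mem_cons_of_mem _ hz))]
      rw [W1_swap ?_ (h2 y (List.mem_cons_self ..))]
      by_contra hd
      apply h3.2
      unfold W1
      exact mem_filter.2 ⟨hw, hd⟩

lemma span_swap {T : Finset Ω} {Y : List (Ω × ℕ)} {x w0 : Ω} (hw0 : w0 ∉ WW sp T Y)
    (hx : ∀ y ∈ Y, Disjoint (sp x) (sp y.1))
    (hs : φ x ∈ span ℚ (φ '' ((T \ WW sp T Y : Finset Ω) : Set Ω))) :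
    span ℚ (φ '' ((insert x (T.erase w0) \ WW sp (insert x (T.erase w0)) Y : Finset Ω) : Set Ω)) ≤
      span ℚ (φ '' ((T \ WW sp T Y : Finset Ω) : Set Ω)) := by
  rw [WW_swap hw0 hx, span_le]
  rintro _ ⟨t, ht, rfl⟩
  rw [mem_coe, mem_sdiff] at ht
  rcases mem_insert.1 ht.1 with h | h
  · subst h
    exact hs
  · exact subset_span ⟨t, by rw [mem_coe, mem_sdiff]; exact ⟨mem_of_mem_erase h, ht.2⟩, rfl⟩

lemma ext_swap {T : Finset Ω} {Y : List (Ω × ℕ)} {x w0 z : Ω} (hw : w0 ∈ T)
    (hw0 : w0 ∉ WW sp T Y)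
    (hx : ∀ y ∈ Y, Disjoint (sp x) (sp y.1))
    (hs : φ x ∈ span ℚ (φ '' ((T \ WW sp T Y : Finset Ω) : Set Ω)))
    (h : Ext val φ sp T Y z) : Ext val φ sp (insert x (T.erase w0)) Y z := by
  refine ⟨h.1, fun hc => h.2.1 (span_swap hw0 hx hs hc), ?_⟩
  rw [UU_swap hw hw0 hx]
  exact h.2.2

lemma cls_swap {T : Finset Ω} {x w0 : Ω} (hw : w0 ∈ T)
    (hg : Good val φ sp (insert x (T.erase w0))) (hn : (insert x (T.erase w0)).card = n) :
    ∀ {Y : List (Ω × ℕ)}, w0 ∉ WW sp T Y →
    (∀ y ∈ Y, Disjoint (sp x) (sp y.1)) →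
    φ x ∈ span ℚ (φ '' ((T \ WW sp T Y : Finset Ω) : Set Ω)) →
    Cls val φ sp n Y T → Cls val φ sp n Y (insert x (T.erase w0))
  | [], _, _, _, _ => ⟨hg, hn⟩
  | y :: Y, h1, h2, h3, h4 => by
      have h5 : w0 ∉ WW sp T Y ∧ w0 ∉ W1 sp T y.1 := by
        unfold WW at h1
        rw [mem_union] at h1
        tauto
      have h6 : ∀ y ∈ Y, Disjoint (sp x) (sp y.1) := fun z hz => h2 z (List.mem_cons_of_mem _ hz)
      have h7 : φ x ∈ span ℚ (φ '' ((T \ WW sp T Y : Finset Ω) : Set Ω)) := by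
        refine span_mono (Set.image_mono ?_) h3
        intro t ht
        rw [mem_coe, mem_sdiff] at ht ⊢
        unfold WW at ht
        rw [mem_union] at ht
        tauto
      refine ⟨cls_swap hw hg hn h5.1 h6 h7 h4.1, ext_swap hw h5.1 h6 h7 h4.2.1, ?_⟩
      rw [W1_swap ?_ (h2 y (List.mem_cons_self ..))]
      · exact h4.2.2
      by_contra hd
      apply h5.2
      unfold W1
      exact mem_filter.2 ⟨hw, hd⟩

/-- exchange in a linearly independent set -/
lemma exchange {T A D : Finset Ω} {x : Ω} (hli : LinearIndepOn ℚ φ (T : Set Ω)) (hA : A ⊆ T)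
    (h1 : φ x ∈ span ℚ (φ '' (A : Set Ω))) (h2 : φ x ∉ span ℚ (φ '' ((A \ D : Finset Ω) : Set Ω))) :
    ∃ w0 ∈ A, w0 ∈ D ∧ LinearIndepOn ℚ φ ((insert x (T.erase w0) : Finset Ω) : Set Ω) := by
  classical
  obtain ⟨f, hf⟩ := (mem_span_image_finset_iff_exists_fun' ℚ).1 h1
  have h3 : ∃ w0 ∈ A, w0 ∈ D ∧ f w0 ≠ 0 := by
    by_contra hcon
    push Not at hcon
    apply h2
    rw [← hf]
    apply sum_mem
    intro t ht
    by_cases htD : t ∈ D
    · rw [hcon t ht htD, zero_smul]
      exact zero_mem _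
    · exact smul_mem _ _ (subset_span ⟨t, by rw [mem_coe, mem_sdiff]; exact ⟨ht, htD⟩, rfl⟩)
  obtain ⟨w0, hw0A, hw0D, hw0f⟩ := h3
  refine ⟨w0, hw0A, hw0D, ?_⟩
  have hw0T : w0 ∈ T := hA hw0A
  have hli' : LinearIndepOn ℚ φ ((T.erase w0 : Finset Ω) : Set Ω) :=
    hli.mono (by intro t ht; exact mem_coe.2 (mem_of_mem_erase (mem_coe.1 ht)))
  rw [coe_insert]
  refine hli'.insert ?_
  intro hxs
  -- then φ w0 in the span of T.erase w0
  have hw0span : φ w0 ∈ span ℚ (φ '' ((T.erase w0 : Finset Ω) : Set Ω)) := by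
    have hsum : ∑ i ∈ A, f i • φ i = f w0 • φ w0 + ∑ i ∈ A.erase w0, f i • φ i :=
      (add_sum_erase A _ hw0A).symm
    have hrest : ∑ i ∈ A.erase w0, f i • φ i ∈
        span ℚ (φ '' ((T.erase w0 : Finset Ω) : Set Ω)) := by
      apply sum_mem
      intro t ht
      refine smul_mem _ _ (subset_span ⟨t, ?_, rfl⟩)
      rw [mem_coe, mem_erase]
      exact ⟨(mem_erase.1 ht).1, hA (mem_erase.1 ht).2⟩
    have hmul : f w0 • φ w0 ∈ span ℚ (φ '' ((T.erase w0 : Finset Ω) : Set Ω)) := by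
      have : f w0 • φ w0 = φ x - ∑ i ∈ A.erase w0, f i • φ i := by
        rw [← hf, hsum]; abel
      rw [this]
      exact sub_mem hxs hrest
    have := smul_mem _ (f w0)⁻¹ hmul
    rwa [smul_smul, inv_mul_cancel₀ hw0f, one_smul] at this
  have hins : (T : Set Ω) = insert w0 ((T.erase w0 : Finset Ω) : Set Ω) := by
    rw [← coe_insert, insert_erase hw0T]
  rw [hins, linearIndepOn_insert (by simp)] at hli
  exact hli.2 hw0span

lemma find_suffix {T : Finset Ω} {x : Ω} (h0 : φ x ∈ span ℚ (φ '' ((T : Finset Ω) : Set Ω))) :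
    ∀ {Y : List (Ω × ℕ)}, φ x ∉ span ℚ (φ '' ((T \ WW sp T Y : Finset Ω) : Set Ω)) →
    ∃ (Y0 : List (Ω × ℕ)) (y : Ω × ℕ) (Y' : List (Ω × ℕ)), Y = Y0 ++ y :: Y' ∧
      φ x ∈ span ℚ (φ '' ((T \ WW sp T Y' : Finset Ω) : Set Ω)) ∧
      φ x ∉ span ℚ (φ '' ((T \ WW sp T (y :: Y') : Finset Ω) : Set Ω))
  | [], h => by
      exfalso
      apply h
      simpa [WW] using h0
  | y :: Y, h => by
      by_cases hc : φ x ∈ span ℚ (φ '' ((T \ WW sp T Y : Finset Ω) : Set Ω))
      · exact ⟨[], y, Y, rfl, hc, h⟩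
      · obtain ⟨Y0, y', Y', h1, h2, h3⟩ := find_suffix h0 hc
        exact ⟨y :: Y0, y', Y', by rw [h1]; rfl, h2, h3⟩

lemma Cls.suffix {T : Finset Ω} {S : List (Ω × ℕ)} : ∀ {Y0 : List (Ω × ℕ)},
    Cls val φ sp n (Y0 ++ S) T → Cls val φ sp n S T
  | [], h => h
  | _ :: Y0, h => Cls.suffix (Y0 := Y0) h.1

lemma Opt.suffix {S : List (Ω × ℕ)} : ∀ {Y0 : List (Ω × ℕ)},
    Opt val φ sp n (Y0 ++ S) → Opt val φ sp n S
  | [], h => h
  | _ :: Y0, h => Opt.suffix (Y0 := Y0) h.1

/-- no admissible element is disjoint from all of T -/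
lemma blocked (hne : ∀ z, (sp z).Nonempty) (hmax : ∀ T, Good val φ sp T → T.card ≤ n)
    {T : Finset Ω} {x : Ω} {Y : List (Ω × ℕ)} (ho : Opt val φ sp n Y) (hc : Cls val φ sp n Y T)
    (hx : Ext val φ sp T Y x) (h0 : W1 sp T x = ∅) : False := by
  have hdis : ∀ t ∈ T, Disjoint (sp t) (sp x) := by
    intro t ht
    by_contra hcon
    have : t ∈ W1 sp T x := mem_filter.2 ⟨ht, hcon⟩
    rw [h0] at this
    simp at this
  have hxT : x ∉ T := by
    intro h
    have := hdis x h
    rw [disjoint_self_iff_empty] at this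
    exact (hne x).ne_empty this
  have hbase := Cls.base hc
  by_cases hin : φ x ∈ span ℚ (φ '' ((T : Finset Ω) : Set Ω))
  · obtain ⟨Y0, y, Y', hY, h1, h2⟩ := find_suffix hin hx.2.1
    rw [hY] at ho hc
    have ho' := ho.suffix
    have hc' := hc.suffix
    have hsub : (T \ WW sp T Y') \ W1 sp T y.1 = T \ WW sp T (y :: Y') := by
      ext t
      rw [mem_sdiff, mem_sdiff, mem_sdiff, WW_cons, mem_union]
      tauto
    rw [← hsub] at h2
    obtain ⟨w0, hw0A, hw0D, hli⟩ := exchange hbase.1.li sdiff_subset h1 h2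
    rw [mem_sdiff] at hw0A
    have hxY : ∀ z ∈ Y, Disjoint (sp x) (sp z.1) := fun z hz => hx.2.2.mono_right (sp_sub_UU hz)
    have hxY' : ∀ z ∈ Y', Disjoint (sp x) (sp z.1) := by
      intro z hz
      apply hxY z
      rw [hY]
      simp [hz]
    have hxy : Disjoint (sp x) (sp y.1) := by
      apply hxY y
      rw [hY]
      simp
    have hgood : Good val φ sp (insert x (T.erase w0)) := by
      refine ⟨?_, ?_, hli⟩
      · intro t ht
        rcases mem_insert.1 ht with h | h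
        · subst h; exact hx.1
        · exact hbase.1.v t (mem_of_mem_erase h)
      · intro t ht t' ht' hne'
        rcases mem_insert.1 ht with h | h
        · subst h
          rcases mem_insert.1 ht' with h' | h'
          · exact absurd h'.symm hne'
          · exact (hdis t' (mem_of_mem_erase h')).symm
        · rcases mem_insert.1 ht' with h' | h'
          · subst h'
            exact hdis t (mem_of_mem_erase h)
          · exact hbase.1.d t (mem_of_mem_erase h) t' (mem_of_mem_erase h') hne'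
    have hcard : (insert x (T.erase w0)).card = n := by
      rw [card_insert_of_notMem (fun h => hxT (mem_of_mem_erase h)), card_erase_of_mem hw0A.1,
        hbase.2]
      have : 0 < T.card := card_pos.2 ⟨w0, hw0A.1⟩
      rw [hbase.2] at this
      omega
    have hcls := cls_swap hw0A.1 hgood hcard hw0A.2 hxY' h1 hc'.1
    have hext := ext_swap hw0A.1 hw0A.2 hxY' h1 hc'.2.1
    have hle := ho'.2.2 _ hcls _ hext
    have hlt : (W1 sp (insert x (T.erase w0)) y.1).card < y.2 := by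
      rw [← hc'.2.2]
      apply card_lt_card
      rw [ssubset_iff_of_subset]
      · refine ⟨w0, hw0D, ?_⟩
        intro hcon
        have h3 := (mem_filter.1 hcon).1
        rcases mem_insert.1 h3 with h | h
        · exact hxT (h ▸ hw0A.1)
        · exact (mem_erase.1 h).1 rfl
      · intro t ht
        have ht' := mem_filter.1 ht
        rcases mem_insert.1 ht'.1 with h | h
        · subst h
          exact absurd hxy ht'.2
        · exact mem_filter.2 ⟨mem_of_mem_erase h, ht'.2⟩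
    omega
  · have hg : Good val φ sp (insert x T) := by
      refine ⟨?_, ?_, ?_⟩
      · intro t ht
        rcases mem_insert.1 ht with h | h
        · subst h; exact hx.1
        · exact hbase.1.v t h
      · intro t ht t' ht' hne'
        rcases mem_insert.1 ht with h | h
        · subst h
          rcases mem_insert.1 ht' with h' | h'
          · exact absurd h'.symm hne'
          · exact (hdis t' h').symm
        · rcases mem_insert.1 ht' with h' | h'
          · subst h'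
            exact hdis t h
          · exact hbase.1.d t h t' h' hne'
      · rw [coe_insert]
        exact hbase.1.li.insert hin
    have := hmax _ hg
    rw [card_insert_of_notMem hxT, hbase.2] at this
    omega

lemma step (hne : ∀ z, (sp z).Nonempty) (hsp : ∀ z, (sp z).card ≤ 2)
    (hmax : ∀ T, Good val φ sp T → T.card ≤ n)
    (hext : ∀ T, Good val φ sp T → T.card = n → ∀ W ⊆ T, ∀ U : Finset V, U.card ≤ 3 * W.card →
      ∃ z, val z ∧ φ z ∉ span ℚ (φ '' ((T \ W : Finset Ω) : Set Ω)) ∧ Disjoint (sp z) U)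
    {Y : List (Ω × ℕ)} (ho : Opt val φ sp n Y) (hc : ∃ T, Cls val φ sp n Y T) :
    ∃ y : Ω × ℕ, Opt val φ sp n (y :: Y) ∧ ∃ T, Cls val φ sp n (y :: Y) T := by
  classical
  have hex : ∃ w : ℕ, ∃ T, Cls val φ sp n Y T ∧ ∃ z, Ext val φ sp T Y z ∧ (W1 sp T z).card = w := by
    obtain ⟨T, hT⟩ := hc
    have hb := Cls.base hT
    obtain ⟨z, hz1, hz2, hz3⟩ := hext T hb.1 hb.2 (WW sp T Y) (WW_sub T Y) (UU sp T Y)
      (bounds hsp ho hT).1
    exact ⟨_, T, hT, z, ⟨hz1, hz2, hz3⟩, rfl⟩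
  obtain ⟨T, hT, z, hz, hw⟩ := Nat.find_spec hex
  refine ⟨(z, Nat.find hex), ⟨ho, ?_, ?_⟩, T, hT, hz, hw⟩
  · by_contra hcon
    have h0 : (W1 sp T z).card = 0 := by
      rw [hw]
      have : ¬ 1 ≤ Nat.find hex := hcon
      omega
    exact blocked hne hmax ho hT hz (card_eq_zero.1 h0)
  · intro T' hT' z' hz'
    exact Nat.find_min' hex ⟨T', hT', z', hz', rfl⟩

theorem hax_abs (hne : ∀ z, (sp z).Nonempty) (hsp : ∀ z, (sp z).card ≤ 2)
    (hmax : ∀ T, Good val φ sp T → T.card ≤ n)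
    (hn : ∃ T, Good val φ sp T ∧ T.card = n)
    (hext : ∀ T, Good val φ sp T → T.card = n → ∀ W ⊆ T, ∀ U : Finset V, U.card ≤ 3 * W.card →
      ∃ z, val z ∧ φ z ∉ span ℚ (φ '' ((T \ W : Finset Ω) : Set Ω)) ∧ Disjoint (sp z) U) :
    False := by
  have hall : ∀ k : ℕ, ∃ Y : List (Ω × ℕ), Y.length = k ∧ Opt val φ sp n Y ∧
      ∃ T, Cls val φ sp n Y T := by
    intro k
    induction k with
    | zero =>
      obtain ⟨T, hT⟩ := hn
      exact ⟨[], rfl, trivial, T, hT⟩
    | succ k ih =>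
      obtain ⟨Y, h1, h2, h3⟩ := ih
      obtain ⟨y, h4, h5⟩ := step hne hsp hmax hext h2 h3
      exact ⟨y :: Y, by rw [List.length_cons, h1], h4, h5⟩
  obtain ⟨Y, h1, h2, T, h3⟩ := hall (n + 1)
  have h4 := (bounds hsp h2 h3).2
  have h5 := card_le_card (WW_sub (sp := sp) T Y)
  rw [(Cls.base h3).2] at h5
  omega

end Pool.Agent.H44.HC.Hax
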