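import Mathlib

/-! Highly connected K_{1,r}-free graphs are Hamiltonian (MP_959f6e_co). Definitions and module targets. -/

set_option autoImplicit false

namespace Pool.Agent.H44.HC

open Finset

/-- no vertex has r pairwise non-adjacent neighbours (G is K_{1,r}-free) -/
def StarFree {V : Type} (r : ℕ) (G : SimpleGraph V) : Prop :=
  ¬ ∃ (v : V) (T : Finset V), T.card = r ∧ (∀ w ∈ T, G.Adj v w) ∧
      (T : Set V).Pairwise (fun a b => ¬ G.Adj a b)

/-- G is c-connected -/
def KConn {V : Type} [Fintype V] (c : ℕ) (G : SimpleGraph V) : Prop :=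
  c < Fintype.card V ∧ ∀ S : Finset V, S.card < c → (G.induce ((S : Set V)ᶜ)).Connected

/-- q is the label function of a partition of V into cliques with at least s vertices each -/
def CliquePart {V : Type} [Fintype V] [DecidableEq V] (s : ℕ) (G : SimpleGraph V) (q : V → V) : Prop :=
  (∀ x y, q x = q y → x ≠ y → G.Adj x y) ∧ ∀ x, s ≤ (univ.filter (fun y => q y = q x)).card

/-- every coarsening of q with p parts: no set of at most 6(p-1)-3 vertices meets all crossing edges -/
def CutProp {V : Type} [Fintype V] [DecidableEq V] (G : SimpleGraph V) (q : V → V) : Prop :=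
  ∀ pi : V → V, (∀ x y, q x = q y → pi x = pi y) → 2 ≤ (univ.image pi).card →
    ∀ U : Finset V, U.card + 3 ≤ 6 * ((univ.image pi).card - 1) →
      ∃ x y, x ∉ U ∧ y ∉ U ∧ pi x ≠ pi y ∧ G.Adj x y

/-- the relation generated by the edges in T (end labels a and b) -/
def Link {ι B : Type} (a b : ι → B) (T : Finset ι) : B → B → Prop :=
  Relation.EqvGen (fun u v => ∃ t ∈ T, a t = u ∧ b t = v)

/-- number of edge ends of T at v -/
def ends {ι B : Type} [DecidableEq B] (a b : ι → B) (T : Finset ι) (v : B) : ℕ :=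
  (T.filter (fun t => a t = v)).card + (T.filter (fun t => b t = v)).card

/-- source and target of a directed edge -/
def src {ι B : Type} (a b : ι → B) (d : ι × Bool) : B := if d.2 then a d.1 else b d.1
def tgt {ι B : Type} (a b : ι → B) (d : ι × Bool) : B := if d.2 then b d.1 else a d.1

/-- RAM: Ramsey's theorem, binomial bound -/
def T_RAM : Prop :=
  ∀ (V : Type) [DecidableEq V] (G : SimpleGraph V) (a b : ℕ) (A : Finset V),
    (a + b).choose a ≤ A.card →
    (∃ T ⊆ A, T.card = a + 1 ∧ (T : Set V).Pairwise (fun x y => ¬ G.Adj x y)) ∨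
    (∃ K ⊆ A, K.card = b + 1 ∧ (K : Set V).Pairwise (fun x y => G.Adj x y))

/-- PART: partition into cliques of size at least 7 -/
def T_PART : Prop :=
  ∀ (V : Type) [Fintype V] [DecidableEq V] (G : SimpleGraph V) (r : ℕ), 1 ≤ r → StarFree r G →
    (∀ v, ∃ N : Finset V, (∀ w ∈ N, G.Adj v w) ∧
      (r + 6).choose 7 + 64 * (r + 4).choose 5 * (r + 6).choose 7 ≤ N.card) →
    ∃ q : V → V, CliquePart 7 G q

/-- CUT: the cut property -/
def T_CUT : Prop :=
  ∀ (V : Type) [Fintype V] [DecidableEq V] (G : SimpleGraph V) (r c : ℕ) (q : V → V),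
    1 ≤ r → StarFree r G → KConn c G → 42 * r ≤ c → CliquePart 7 G q → CutProp G q

/-- HAX: two vertex-disjoint spanning trees of crossing edges on the set of labels -/
def T_HAX : Prop :=
  ∀ (V : Type) [Fintype V] [DecidableEq V] (G : SimpleGraph V) (q : V → V), CutProp G q →
    ∃ T1 T2 : Finset (V × V), Disjoint T1 T2 ∧
      (∀ t ∈ T1 ∪ T2, G.Adj t.1 t.2) ∧
      (∀ t ∈ T1 ∪ T2, ∀ t' ∈ T1 ∪ T2, t ≠ t' →
        t.1 ≠ t'.1 ∧ t.1 ≠ t'.2 ∧ t.2 ≠ t'.1 ∧ t.2 ≠ t'.2) ∧
      (∀ u v : V, Link (fun t : V × V => q t.1) (fun t : V × V => q t.2) T1 (q u) (q v)) ∧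
      (∀ u v : V, Link (fun t : V × V => q t.1) (fun t : V × V => q t.2) T2 (q u) (q v))

/-- TJ: parity correction: if T2 links the two ends of every edge of T1, some subset J of T2 gives all
vertices an even number of edge ends in T1 and J together -/
def T_TJ : Prop :=
  ∀ (ι B : Type) [DecidableEq ι] [DecidableEq B] (a b : ι → B) (T1 T2 : Finset ι),
    (∀ e ∈ T1, Link a b T2 (a e) (b e)) →
    ∃ J ⊆ T2, ∀ v : B, Even (ends a b T1 v + ends a b J v)

/-- EUL: Euler circuits -/
def T_EUL : Prop :=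
  ∀ (ι B : Type) [DecidableEq ι] [DecidableEq B] (a b : ι → B) (E : Finset ι), E.Nonempty →
    (∀ v : B, Even (ends a b E v)) →
    (∀ e ∈ E, ∀ f ∈ E, Link a b E (a e) (a f)) →
    ∃ L : List (ι × Bool), (L.map Prod.fst).Nodup ∧ (∀ e, e ∈ L.map Prod.fst ↔ e ∈ E) ∧
      L.IsChain (fun d d' => tgt a b d = src a b d') ∧
      ∀ (d d' : ι × Bool), L.head? = some d → L.getLast? = some d' → tgt a b d' = src a b d

/-- HL: a cyclic list of all vertices with consecutive vertices adjacent is a Hamiltonian cycle -/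
def T_HL : Prop :=
  ∀ (V : Type) [Fintype V] [DecidableEq V] (G : SimpleGraph V) (L : List V), 3 ≤ L.length →
    L.Nodup → (∀ v, v ∈ L) → L.IsChain G.Adj →
    (∀ u v, L.head? = some u → L.getLast? = some v → G.Adj v u) → G.IsHamiltonian

/-- INS: from a closed trail visiting all cliques to a Hamiltonian cycle -/
def T_INS : Prop :=
  ∀ (V : Type) [Fintype V] [DecidableEq V] (G : SimpleGraph V) (q : V → V) (L : List (V × V)),
    (∀ x y, q x = q y → x ≠ y → G.Adj x y) → 3 ≤ Fintype.card V →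
    (∀ d ∈ L, G.Adj d.1 d.2) → (L.flatMap (fun d => [d.1, d.2])).Nodup →
    L.IsChain (fun d d' => q d.2 = q d'.1) →
    (∀ d d', L.head? = some d → L.getLast? = some d' → q d'.2 = q d.1) →
    (∀ v : V, ∃ d ∈ L, q d.2 = q v) → G.IsHamiltonian

end Pool.Agent.H44.HC
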